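import Pool.Agent.W282.ZP.MoebDim

/-!
# MP_d83ecd_ag: Zilber-Pink for a positive proportion of the Möbius translates of any subvariety

`Y(1)^n` is identified with `ℂ^n` by the elliptic modular function `jj = j = E₄³ / Δ`. Let `V` be
any irreducible subvariety of `Y(1)^n` and let `g = (g_1, …, g_n)` be an `n`-tuple of integral
matrices of size two, acting on the coordinates by Möbius transformations. For a positive proportion
of the `g` (in every box, in every residue class) the translate `g V` is irreducible, of the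
same dimension as `V`, and has no atypical subvariety at all: every irreducible subset `A` of the
intersection of (the Zariski closure of) `g V` with a special subvariety `Z` satisfies
`dim A ≤ dim V + dim Z - n`. The same holds for the larger class of the `Z` whose constant
coordinates are special, isogenous to an element of a given finite set `Γ` of complex numbers, or
integral over `ℤ[Γ]`.
-/

set_option autoImplicit false

namespace Pool.Agent.Results.MP_d83ecd_ag.MoebiusTranslates

open H294ZP UpperHalfPlane MvPolynomial Pool.Agent.W282.ZP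

/-- A special subvariety of `Y(1)^n = ℂ^n` of dimension `r` (with more constants allowed): a map
`cls` from the coordinates onto `r` classes (`none` for constant coordinates), an integral matrix
of positive determinant for every coordinate, and a constant for every coordinate, which is a
special point, isogenous to an element of `Γ`, or integral over `ℤ[Γ]`. -/
structure ModularDatum (Γ : Finset ℂ) (n r : ℕ) where
  cls : Fin n → Option (Fin r)
  surj : ∀ l : Fin r, ∃ i, cls i = some l
  mat : Fin n → Matrix (Fin 2) (Fin 2) ℤ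
  det_pos : ∀ i, 0 < (mat i).det
  const : Fin n → ℂ
  allowed : ∀ i, AllowedConst Γ (const i)

/-- The points of the special subvariety: the constant coordinates are the given constants, and the
coordinates of class `l` are `j (g_i z_l)`, with a free parameter `z_l` in the upper half plane. -/
def ModularDatum.locus {Γ : Finset ℂ} {n r : ℕ} (Z : ModularDatum Γ n r) : Set (Fin n → ℂ) :=
  {x | ∃ z : Fin r → ℍ, ∀ i, (Z.cls i = none → x i = Z.const i) ∧
    ∀ l, Z.cls i = some l → ∃ w : ℍ,
      (w : ℂ) * (Z.mat i 1 0 * z l + Z.mat i 1 1) = Z.mat i 0 0 * z l + Z.mat i 0 1 ∧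
      x i = jj w}

/-- `W` (more precisely its Zariski closure) has no atypical subvariety: every irreducible subset
`A` of its intersection with a special subvariety `Z` of dimension `r` satisfies
`dim A ≤ dim W + r - n`. -/
def NoAtypicalSubvariety (Γ : Finset ℂ) {n : ℕ} (W : Set (Fin n → ℂ)) : Prop :=
  ∀ (r : ℕ) (Z : ModularDatum Γ n r) (A : Set (Fin n → ℂ)), A ⊆ zcl W → A ⊆ Z.locus →
    (idealOf A).IsPrime → zdim A + (n : Cardinal) ≤ zdim W + (r : Cardinal)

/-- Let `V` be an irreducible subvariety of `Y(1)^n` and let `Γ` be a finite set. In every residue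
class modulo any `Q₀` and in every box `H u + [-ε H, ε H]^(4n)` there is a positive proportion of
tuples `g` of integral matrices for which `g V` is irreducible of the dimension of `V` and has no
atypical subvariety. -/
theorem result (n : ℕ) (V : Set (Fin n → ℂ)) (hV : (idealOf V).IsPrime) (Γ : Finset ℂ) (Q₀ : ℕ)
    (hQ₀ : 0 < Q₀) (g₀ : Fin n → Matrix (Fin 2) (Fin 2) ℤ) (u : Fin n → Matrix (Fin 2) (Fin 2) ℝ)
    (ε : ℝ) (hε : 0 < ε) :
    ∃ δ : ℝ, 0 < δ ∧ ∀ᶠ H : ℕ in Filter.atTop,
      δ * (H : ℝ) ^ (4 * n) ≤ Nat.card {g : Fin n → Matrix (Fin 2) (Fin 2) ℤ //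
        (∀ i s t, |(g i s t : ℝ) - H * u i s t| ≤ ε * H) ∧
        (∀ i s t, (Q₀ : ℤ) ∣ g i s t - g₀ i s t) ∧ (∀ i, (g i).det ≠ 0) ∧
        (idealOf (translate g V)).IsPrime ∧ zdim (translate g V) = zdim V ∧
        NoAtypicalSubvariety Γ (translate g V)} := by
  classical
  have hfin : Algebra.trdeg ℂ (MvPolynomial (Fin n) ℂ ⧸ idealOf V) < Cardinal.aleph0 :=
    trdeg_lt_aleph0_of_finiteType
  obtain ⟨d, hd⟩ := Cardinal.lt_aleph0.1 hfin
  obtain ⟨Q, G, hQ, hmain⟩ := exists_class_moeb (idealOf V) hd Γ Q₀ hQ₀ g₀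
  -- one residue class is good
  have hgood : ∀ g : Fin n → Matrix (Fin 2) (Fin 2) ℤ, (∀ i s t, (Q : ℤ) ∣ g i s t - G i s t) →
      (∀ i s t, (Q₀ : ℤ) ∣ g i s t - g₀ i s t) ∧ (∀ i, (g i).det ≠ 0) ∧
        (idealOf (translate g V)).IsPrime ∧ zdim (translate g V) = zdim V ∧
        NoAtypicalSubvariety Γ (translate g V) := by
    intro g hg
    obtain ⟨hg0, hdet, hden, hkey⟩ := hmain g hg
    obtain ⟨hprime, hdimV⟩ := translate_prime_dim g hdet V hV hden
    refine ⟨hg0, hdet, hprime, hdimV, ?_⟩
    intro r Z A hAW hAZ hA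
    obtain ⟨K, _, _, z, hz, T, hT, hdim⟩ := generic_point (idealOf A)
    have hpull : ∀ (J : Finset (Fin n)) (f : MvPolynomial J ℂ),
        rename (Subtype.val : J → Fin n) f ∈ idealOf V → aeval z (pull g f) = 0 := by
      intro J f hf
      rw [hz, mem_idealOf]
      intro x hx
      refine hAW hx _ (mem_idealOf.2 ?_)
      rintro y ⟨v, hv, hy⟩
      have hyi : ∀ i, y i * (((g i 1 0 : ℤ) : ℂ) * v i + ((g i 1 1 : ℤ) : ℂ)) =
          ((g i 0 0 : ℤ) : ℂ) * v i + ((g i 0 1 : ℤ) : ℂ) := by
        intro i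
        rw [(hy i).2]
        exact div_mul_cancel₀ _ (hy i).1
      have hdet' : ∀ i, (((g i).det : ℤ) : ℂ) ≠ 0 := fun i => by exact_mod_cast hdet i
      have ht1 : ∀ i, (((g i 0 0 : ℤ) : ℂ) - ((g i 1 0 : ℤ) : ℂ) * y i) *
          (((g i 1 0 : ℤ) : ℂ) * v i + ((g i 1 1 : ℤ) : ℂ)) = (((g i).det : ℤ) : ℂ) := by
        intro i
        rw [Matrix.det_fin_two]
        push_cast
        linear_combination -((g i 1 0 : ℤ) : ℂ) * hyi i
      have ht0 : ∀ i, ((g i 0 0 : ℤ) : ℂ) - ((g i 1 0 : ℤ) : ℂ) * y i ≠ 0 := by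
        intro i h
        have h1 := ht1 i
        rw [h, zero_mul] at h1
        exact hdet' i h1.symm
      have hquot : ∀ i, (((g i 1 1 : ℤ) : ℂ) * y i - ((g i 0 1 : ℤ) : ℂ)) /
          (((g i 0 0 : ℤ) : ℂ) - ((g i 1 0 : ℤ) : ℂ) * y i) = v i := by
        intro i
        rw [div_eq_iff (ht0 i)]
        linear_combination hyi i
      rw [← aeval_eq_eval]
      change aeval y (pull g f) = 0
      rw [aeval_pull g f y (fun i _ => ht0 i)]
      simp only [hquot]
      have h1 := mem_idealOf.1 hf v hv
      rw [eval_rename] at h1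
      rw [aeval_eq_eval]
      change _ * eval (fun i : J => v i) f = 0
      have h2 : eval (fun i : J => v i) f = 0 := h1
      rw [h2, mul_zero]
    have hconst : ∀ i, Z.cls i = none → ∃ c : ℂ, IsIntegral (Algebra.adjoin ℤ (Γ : Set ℂ)) c ∧
        z i = algebraMap ℂ K c := by
      intro i hi
      refine ⟨Z.const i, (Z.allowed i).isIntegral, ?_⟩
      · have h1 : (X i - C (Z.const i) : MvPolynomial (Fin n) ℂ) ∈ idealOf A := by
          rw [mem_idealOf]
          intro x hx
          obtain ⟨w, hw⟩ := hAZ hx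
          have h2 := (hw i).1 hi
          simp only [map_sub, eval_X, eval_C]
          exact sub_eq_zero.2 h2
        have h2 := (hz _).2 h1
        rw [map_sub, aeval_X, aeval_C, sub_eq_zero] at h2
        exact h2
    have hrel : ∀ i i' l, Z.cls i = some l → Z.cls i' = some l → Polynomial.eval₂
        (Polynomial.aeval (z i) : Polynomial ℂ →ₐ[ℂ] K).toRingHom (z i')
          (Psi ((Z.mat i).det * (Z.mat i').det).toNat) = 0 := by
      intro i i' l hi hi'
      rw [← aeval_relPoly, hz, mem_idealOf]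
      intro x hx
      obtain ⟨w, hw⟩ := hAZ hx
      obtain ⟨w1, h1, h2⟩ := (hw i).2 l hi
      obtain ⟨w2, h3, h4⟩ := (hw i').2 l hi'
      exact eval_relPoly_eq_zero (Z.det_pos i) (Z.det_pos i') h1 h3 h2 h4
    have hN : ∀ i i', 0 < ((Z.mat i).det * (Z.mat i').det).toNat := by
      intro i i'
      have := mul_pos (Z.det_pos i) (Z.det_pos i')
      omega
    have hfinal := hkey K z hpull r Z.cls _ hN hconst hrel T hT
    have h1 : zdim A ≤ (T.card : Cardinal) := hdim
    calc zdim A + (n : Cardinal) ≤ (T.card : Cardinal) + (n : Cardinal) := by gcongr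
      _ = ((T.card + n : ℕ) : Cardinal) := by push_cast; rfl
      _ ≤ ((r + d : ℕ) : Cardinal) := by exact_mod_cast hfinal
      _ = zdim (translate g V) + (r : Cardinal) := by
        rw [hdimV, zdim, hd]; push_cast; rw [add_comm]
  -- counting
  let e : (Fin n × Fin 2 × Fin 2 → ℤ) ≃ (Fin n → Matrix (Fin 2) (Fin 2) ℤ) :=
    { toFun := fun f i => Matrix.of fun s t => f (i, s, t)
      invFun := fun g a => g a.1 a.2.1 a.2.2
      left_inv := fun f => rfl
      right_inv := fun g => rfl }
  obtain ⟨δ, hδ, h⟩ := pos_proportion' (κ := Fin n × Fin 2 × Fin 2) Q hQ (e.symm G)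
    (fun f => (∀ i s t, (Q₀ : ℤ) ∣ e f i s t - g₀ i s t) ∧ (∀ i, (e f i).det ≠ 0) ∧
        (idealOf (translate (e f) V)).IsPrime ∧ zdim (translate (e f) V) = zdim V ∧
        NoAtypicalSubvariety Γ (translate (e f) V))
    (fun f hf => hgood (e f) fun i s t => hf (i, s, t)) (fun a => u a.1 a.2.1 a.2.2) ε hε
  refine ⟨δ, hδ, ?_⟩
  filter_upwards [h] with H hH
  have hcard : Fintype.card (Fin n × Fin 2 × Fin 2) = 4 * n := by
    simp only [Fintype.card_prod, Fintype.card_fin]
    ring
  rw [hcard] at hH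
  refine hH.trans (le_of_eq ?_)
  congr 1
  refine Nat.card_congr (Equiv.subtypeEquiv e fun f => ?_)
  constructor
  · rintro ⟨h1, h2⟩
    exact ⟨fun i s t => h1 (i, s, t), h2⟩
  · rintro ⟨h1, h2⟩
    exact ⟨fun a => h1 a.1 a.2.1 a.2.2, h2⟩

end Pool.Agent.Results.MP_d83ecd_ag.MoebiusTranslates
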